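import Mathlib
import Pool.Agent.R475.UFL

open Filter

namespace Pool.Agent.Results.MP_26c4ab_lc.NoGreatestLowerBound

open Pool.Agent.R475.UF

noncomputable def W (i : ℕ) : Ultrafilter ℕ+ := N.map fun j => 2 * P i j

noncomputable def Y : ℕ → ℕ → Ultrafilter ℕ+
  | n, 0 => W n
  | n, d + 1 => prod (Y (n + 1) d) (W n)

noncomputable def U (n : ℕ) : Ultrafilter ℕ+ := N.bind fun m => Y n (m - n)

theorem ev_U (n : ℕ) (p : ℕ+ → Prop) : (∀ᶠ z in (U n : Filter ℕ+), p z) ↔
    ∀ᶠ m in (N : Filter ℕ), ∀ᶠ z in (Y n (m - n) : Filter ℕ+), p z := Iff.rfl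

theorem U_eq (n : ℕ) : U n = prod (U (n + 1)) (W n) := by
  apply ext'
  intro p
  rw [ev_prod, ev_U, ev_U]
  constructor
  · intro h
    filter_upwards [h, ev_N_ge (n + 1)] with m hm hn
    have h1 : m - n = (m - (n + 1)) + 1 := by omega
    rw [h1] at hm
    exact hm
  · intro h
    filter_upwards [h, ev_N_ge (n + 1)] with m hm hn
    have h1 : m - n = (m - (n + 1)) + 1 := by omega
    rw [h1]
    exact hm

theorem U_anti (i j : ℕ) (h : i ≤ j) : Fe (U j) (U i) := by
  induction j, h using Nat.le_induction with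
  | base => exact Fe.refl _
  | succ j _ ih =>
    refine Fe.trans ?_ ih
    rw [U_eq j]
    exact fe_prod _ _

def inC : ℕ → ℕ → ℕ+ → Prop
  | n, 0, z => ∃ j, z = 2 * P n j
  | n, d + 1, z => ∃ x j, inC (n + 1) d x ∧ z = x * (2 * P n j)

theorem ev_Y (n d : ℕ) : ∀ᶠ z in (Y n d : Filter ℕ+), inC n d z := by
  induction d generalizing n with
  | zero =>
    show ∀ᶠ j in (N : Filter ℕ), inC n 0 (2 * P n j)
    exact Eventually.of_forall fun j => ⟨j, rfl⟩
  | succ d ih =>
    show ∀ᶠ x in (Y (n + 1) d : Filter ℕ+), ∀ᶠ j in (N : Filter ℕ), inC n (d + 1) (x * (2 * P n j))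
    filter_upwards [ih (n + 1)] with x hx
    exact Eventually.of_forall fun j => ⟨x, j, hx, rfl⟩

theorem ev_U_inC (n k : ℕ) : ∀ᶠ z in (U n : Filter ℕ+), ∃ d, k ≤ d ∧ inC n d z := by
  rw [ev_U]
  filter_upwards [ev_N_ge (n + k)] with m hm
  filter_upwards [ev_Y n (m - n)] with z hz
  exact ⟨m - n, by omega, hz⟩

def odd : Set ℕ := {p | p ≠ 2}
def cls (i : ℕ) : Set ℕ := {p | ∃ j, p = pr i j}
def low (i : ℕ) : Set ℕ := {p | ∃ i' j, i' ≤ i ∧ p = pr i' j}

theorem two_prime : ((2 : ℕ+) : ℕ).Prime := Nat.prime_two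

theorem cnt_two_inC {n d : ℕ} {z : ℕ+} (h : inC n d z) : cnt {2} z = d + 1 := by
  have key : ∀ n j, cnt {2} (2 * P n j) = 1 := by
    intro n j
    have h2 : cnt {2} (P n j) = 0 := cnt_prime_notMem (pr_prime n j) (fun h => pr_ne_two n j h)
    have h3 : cnt {2} 2 = 1 := cnt_prime_mem two_prime (by simp)
    rw [cnt_mul, h2, h3]
  induction d generalizing n z with
  | zero =>
    obtain ⟨j, rfl⟩ := h
    rw [key]
  | succ d ih =>
    obtain ⟨x, j, hx, rfl⟩ := h
    rw [cnt_mul, ih hx, key]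

theorem cnt_odd_inC {n d : ℕ} {z : ℕ+} (h : inC n d z) : cnt odd z = d + 1 := by
  have key : ∀ n j, cnt odd (2 * P n j) = 1 := by
    intro n j
    have h2 : cnt odd (P n j) = 1 := cnt_prime_mem (pr_prime n j) (fun h => pr_ne_two n j h)
    have h3 : cnt odd 2 = 0 := cnt_prime_notMem two_prime (by simp [odd])
    rw [cnt_mul, h2, h3]
  induction d generalizing n z with
  | zero =>
    obtain ⟨j, rfl⟩ := h
    rw [key]
  | succ d ih =>
    obtain ⟨x, j, hx, rfl⟩ := h
    rw [cnt_mul, ih hx, key]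

theorem cnt_cls_inC {n d : ℕ} {z : ℕ+} (i : ℕ) (h : inC n d z) :
    cnt (cls i) z = if n ≤ i ∧ i ≤ n + d then 1 else 0 := by
  have key : ∀ n j, cnt (cls i) (2 * P n j) = if n = i then 1 else 0 := by
    intro n j
    have h3 : cnt (cls i) 2 = 0 :=
      cnt_prime_notMem two_prime (fun ⟨j, hj⟩ => pr_ne_two i j hj.symm)
    rw [cnt_mul, h3]
    split_ifs with h
    · have h2 : cnt (cls i) (P n j) = 1 := cnt_prime_mem (pr_prime n j) ⟨j, by rw [P_coe, h]⟩
      rw [h2]
    · have h2 : cnt (cls i) (P n j) = 0 :=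
        cnt_prime_notMem (pr_prime n j) (fun ⟨j', hj⟩ => h (pr_inj hj).1)
      rw [h2]
  induction d generalizing n z with
  | zero =>
    obtain ⟨j, rfl⟩ := h
    rw [key]
    congr 1
    apply propext
    omega
  | succ d ih =>
    obtain ⟨x, j, hx, rfl⟩ := h
    rw [cnt_mul, ih hx, key]
    split_ifs <;> omega

theorem cnt_low_inC_lt {n d : ℕ} {z : ℕ+} (i : ℕ) (hi : i < n) (h : inC n d z) :
    cnt (low i) z = 0 := by
  have key : ∀ n j, i < n → cnt (low i) (2 * P n j) = 0 := by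
    intro n j hn
    have h3 : cnt (low i) 2 = 0 :=
      cnt_prime_notMem two_prime (fun ⟨i', j, _, hj⟩ => pr_ne_two i' j hj.symm)
    have h2 : cnt (low i) (P n j) = 0 :=
      cnt_prime_notMem (pr_prime n j) (fun ⟨i', j', hi', hj⟩ => by
        have := (pr_inj hj).1
        omega)
    rw [cnt_mul, h3, h2]
  induction d generalizing n z with
  | zero =>
    obtain ⟨j, rfl⟩ := h
    rw [key _ _ hi]
  | succ d ih =>
    obtain ⟨x, j, hx, rfl⟩ := h
    rw [cnt_mul, ih (by omega) hx, key _ _ hi]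

theorem cnt_low_inC_le {n d : ℕ} {z : ℕ+} (i : ℕ) (hi : n + d ≤ i) (h : inC n d z) :
    cnt (low i) z = d + 1 := by
  have key : ∀ n j, n ≤ i → cnt (low i) (2 * P n j) = 1 := by
    intro n j hn
    have h3 : cnt (low i) 2 = 0 :=
      cnt_prime_notMem two_prime (fun ⟨i', j, _, hj⟩ => pr_ne_two i' j hj.symm)
    have h2 : cnt (low i) (P n j) = 1 :=
      cnt_prime_mem (pr_prime n j) ⟨n, j, hn, rfl⟩
    rw [cnt_mul, h3, h2]
  induction d generalizing n z with
  | zero =>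
    obtain ⟨j, rfl⟩ := h
    rw [key _ _ (by omega)]
  | succ d ih =>
    obtain ⟨x, j, hx, rfl⟩ := h
    rw [cnt_mul, ih (by omega) hx, key _ _ (by omega)]

theorem cnt_low_le_odd (i : ℕ) (x : ℕ+) : cnt (low i) x ≤ cnt odd x :=
  cnt_mono (fun p _ hp => by
    obtain ⟨i', j, _, hj⟩ := hp
    show p ≠ 2
    rw [hj]; exact pr_ne_two i' j) x

theorem cnt_cls_le_low (i : ℕ) (x : ℕ+) : cnt (cls i) x ≤ cnt (low i) x :=
  cnt_mono (fun p _ hp => by
    obtain ⟨j, hj⟩ := hp
    exact ⟨i, j, le_rfl, hj⟩) x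

theorem eq_two_pow {x : ℕ+} (h : cnt odd x = 0) : (x : ℕ) = 2 ^ cnt {2} x := by
  have h1 : ∀ {d : ℕ}, d.Prime → d ∣ (x : ℕ) → d = 2 := by
    intro d hd hdx
    by_contra hne
    have := (cnt_pos_iff odd x).2 ⟨d, hd, hdx, hne⟩
    omega
  have h2 := Nat.eq_prime_pow_of_unique_prime_dvd x.ne_zero h1
  rw [h2]
  congr 1
  have h3 := cnt_univ x
  have h4 : cnt Set.univ x ≤ cnt {2} x :=
    le_of_eq (by
      classical
      unfold cnt
      apply List.countP_congr
      intro p hp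
      simp only [Set.mem_univ, decide_true, Set.mem_singleton_iff, true_iff, decide_eq_true_eq]
      exact h1 (Nat.prime_of_mem_primeFactorsList hp) (Nat.dvd_of_mem_primeFactorsList hp))
  have h5 : cnt {2} x ≤ cnt Set.univ x := cnt_mono (fun _ _ _ => trivial) x
  omega

/-- Every lower bound of the chain is principal. -/
theorem principal_of_lower (V : Ultrafilter ℕ+) (hV : ∀ n, Fe V (U n)) : ∃ m, V = pure m := by
  rcases principal_or V with h | hnp
  · exact h
  exfalso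
  obtain ⟨A0, hA0, hfe⟩ := hV 0 {z | ∃ d, 0 ≤ d ∧ inC 0 d z} (ev_U_inC 0 0)
  by_cases hcase : ∃ e0 ∈ A0, 0 < cnt odd e0
  · obtain ⟨e0, he0, hpos⟩ := hcase
    -- the class `i0`
    have hi0 : ∃ i0, 0 < cnt (cls i0) e0 := by
      obtain ⟨k, hk⟩ := hfe {e0} (by simpa using he0)
      obtain ⟨d0, -, hd0⟩ := hk e0 (Finset.mem_singleton_self _)
      have h1 := cnt_low_inC_le d0 (by omega) hd0
      have h2 := cnt_odd_inC hd0
      rw [cnt_mul] at h1 h2
      have h3 := cnt_low_le_odd d0 k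
      have h4 := cnt_low_le_odd d0 e0
      have h5 : 0 < cnt (low d0) e0 := by omega
      obtain ⟨s, hs, hse, i0, j0, -, hs2⟩ := (cnt_pos_iff _ _).1 h5
      exact ⟨i0, (cnt_pos_iff _ _).2 ⟨s, hs, hse, j0, hs2⟩⟩
    obtain ⟨i0, hi0⟩ := hi0
    have hfin : ({x : ℕ+ | ∃ a, a ≤ i0 ∧ (x : ℕ) = 2 ^ a}).Finite := by
      refine ((Set.finite_Iic i0).image fun a => ((2 : ℕ+) ^ a)).subset ?_
      rintro x ⟨a, ha, hx⟩
      refine ⟨a, ha, ?_⟩
      apply PNat.coe_injective
      rw [hx]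
      simp
    have hev : ∀ᶠ e in (V : Filter ℕ+), 0 < cnt (low i0) e := by
      have hA0' : ∀ᶠ e in (V : Filter ℕ+), e ∈ A0 := hA0
      filter_upwards [hA0', hnp _ hfin] with e he hef
      classical
      obtain ⟨k, hk⟩ := hfe {e0, e} (by
        intro x hx
        simp only [Finset.coe_insert, Finset.coe_singleton, Set.mem_insert_iff,
          Set.mem_singleton_iff] at hx
        rcases hx with rfl | rfl
        · exact he0
        · exact he)
      obtain ⟨d', -, hd'⟩ := hk e0 (by simp)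
      obtain ⟨d, -, hd⟩ := hk e (by simp)
      have h1 := cnt_cls_inC i0 hd'
      have h2 := cnt_cls_inC i0 hd
      rw [cnt_mul] at h1 h2
      have h3 : cnt (cls i0) k = 0 := by
        split_ifs at h1 <;> omega
      by_cases hdi : i0 ≤ d
      · rw [if_pos (by omega), h3] at h2
        have := cnt_cls_le_low i0 e
        omega
      · by_contra hneg
        have h4 := cnt_low_inC_le i0 (by omega) hd
        have h5 := cnt_odd_inC hd
        have h8 := cnt_two_inC hd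
        rw [cnt_mul] at h4 h5 h8
        have h6 := cnt_low_le_odd i0 k
        have h7 := cnt_low_le_odd i0 e
        have h9 : cnt odd e = 0 := by omega
        exact hef ⟨cnt {2} e, by omega, eq_two_pow h9⟩
    obtain ⟨A', hA', hfe'⟩ := hV (i0 + 1) {z | ∃ d, 0 ≤ d ∧ inC (i0 + 1) d z}
      (ev_U_inC (i0 + 1) 0)
    have hA'' : ∀ᶠ e in (V : Filter ℕ+), e ∈ A' := hA'
    obtain ⟨e, he, he2⟩ := (hA''.and hev).exists
    obtain ⟨k, hk⟩ := hfe' {e} (by simpa using he)
    obtain ⟨d, -, hd⟩ := hk e (Finset.mem_singleton_self _)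
    have := cnt_low_inC_lt i0 (by omega) hd
    rw [cnt_mul] at this
    omega
  · push Not at hcase
    have hA0' : ∀ᶠ e in (V : Filter ℕ+), e ∈ A0 := hA0
    obtain ⟨e, he⟩ := hA0'.exists
    obtain ⟨e', he', hne⟩ := (hA0'.and (hnp {e} (Set.finite_singleton e))).exists
    classical
    obtain ⟨k, hk⟩ := hfe {e, e'} (by
      intro x hx
      simp only [Finset.coe_insert, Finset.coe_singleton, Set.mem_insert_iff,
        Set.mem_singleton_iff] at hx
      rcases hx with rfl | rfl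
      · exact he
      · exact he')
    obtain ⟨d, -, hd⟩ := hk e (by simp)
    obtain ⟨d', -, hd'⟩ := hk e' (by simp)
    have h1 := cnt_two_inC hd
    have h2 := cnt_odd_inC hd
    have h3 := cnt_two_inC hd'
    have h4 := cnt_odd_inC hd'
    rw [cnt_mul] at h1 h2 h3 h4
    have h5 := hcase e he
    have h6 := hcase e' he'
    have h7 : cnt {2} e = cnt {2} e' := by omega
    apply hne
    rw [Set.mem_singleton_iff]
    apply PNat.coe_injective
    rw [eq_two_pow (x := e) (by omega), eq_two_pow (x := e') (by omega), h7]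

theorem two_pow_dvd {n d : ℕ} {z : ℕ+} (h : inC n d z) : (2 : ℕ+) ^ d ∣ z := by
  induction d generalizing n z with
  | zero => simp
  | succ d ih =>
    obtain ⟨x, j, hx, rfl⟩ := h
    rw [pow_succ]
    exact mul_dvd_mul (ih hx) (Dvd.intro _ rfl)

theorem lower_two_pow (k n : ℕ) : Fe (pure (2 ^ k)) (U n) := by
  intro B hB
  have hB' : ∀ᶠ z in (U n : Filter ℕ+), z ∈ B := hB
  obtain ⟨z, hz, d, hd, hz2⟩ := (hB'.and (ev_U_inC n k)).exists
  have h1 : (2 : ℕ+) ^ k ∣ z := (pow_dvd_pow 2 hd).trans (two_pow_dvd hz2)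
  obtain ⟨c, hc⟩ := h1
  refine ⟨{2 ^ k}, rfl, fun E hE => ⟨c, fun x hx => ?_⟩⟩
  have : x = 2 ^ k := hE hx
  rw [this, mul_comm, ← hc]
  exact hz

/-- **Negative answer to MP_26c4ab_lc.** There is a `≤_fe`-decreasing chain, indexed by the
natural numbers, of ultrafilters on the positive integers whose set of lower bounds has no
greatest element. -/
theorem result : ∃ U : ℕ → Ultrafilter ℕ+, (∀ i j, i ≤ j → Fe (U j) (U i)) ∧
    ¬ ∃ G : Ultrafilter ℕ+, (∀ i, Fe G (U i)) ∧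
      ∀ H : Ultrafilter ℕ+, (∀ i, Fe H (U i)) → Fe H G := by
  refine ⟨U, U_anti, ?_⟩
  rintro ⟨G, hG, hmax⟩
  obtain ⟨m, rfl⟩ := principal_of_lower G hG
  obtain ⟨A, hA, hAm⟩ := hmax (pure (2 ^ (m : ℕ))) (fun n => lower_two_pow _ n) {m} rfl
  have hA' : (2 : ℕ+) ^ (m : ℕ) ∈ A := hA
  obtain ⟨k, hk⟩ := hAm {2 ^ (m : ℕ)} (by simpa using hA')
  have h1 : k * 2 ^ (m : ℕ) = m := hk _ (Finset.mem_singleton_self _)
  have h2 : (k : ℕ) * 2 ^ (m : ℕ) = m := by
    have := congrArg PNat.val h1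
    simpa using this
  have h3 : (m : ℕ) < 2 ^ (m : ℕ) := Nat.lt_two_pow_self
  have h4 := k.pos
  nlinarith

end Pool.Agent.Results.MP_26c4ab_lc.NoGreatestLowerBound
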